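import Pool.Agent.V11237.LP.Window
import Pool.Agent.H381R2.HR.Main

set_option autoImplicit false

/-!
# Windows of length `y` with more than `π(y)` almost primes, one of them a prime

For every `α < 1 / 2` and all large `y` there is an `m` such that for all large `r` and `N`, every
`n ∈ (m, m + y]` without prime factor `≤ y`, and every interval `(u, u + Y]`: the number of the `x` in
it for which `M x + n` (`M` the product of the primes `≤ y`) is PRIME and the window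
`(M x + m, M x + m + y]` contains `h_m(y) ≥ π(y) + α y log log log y / (log y) ^ 2` integers without
prime factor `≤ N ^ (1 / r)` is `(Y / log X) (V / U)` up to a factor `1 ± ε`; and the next such windows
follow a Poisson law.
-/

namespace Pool.Agent.Results.MP_5046ca_nt.AlmostPrimeWindows

open Finset
open Pool.Agent.V11237.LP.Window

/-- A dense sieve-admissible window. -/
lemma dense (α : ℝ) (hα : α < 1 / 2) : ∃ y₀ : ℕ, ∀ y : ℕ, y₀ ≤ y → ∃ m : ℕ,
    (Nat.primeCounting y : ℝ) + α * (y * Real.log (Real.log (Real.log y)) / (Real.log y) ^ 2) ≤ h y m := by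
  classical
  obtain ⟨x0, hx0⟩ := Pool.Agent.H381R2.HR.final hα
  refine ⟨max ⌈x0⌉₊ 1, ?_⟩
  intro y hy
  have hy1 : 1 ≤ y := (le_max_right _ _).trans hy
  obtain ⟨S, _, hS1, hS2, hS3⟩ := hx0 y ((Nat.le_ceil x0).trans
    (by exact_mod_cast (le_max_left _ _).trans hy))
  rw [Nat.floor_natCast] at hS3
  choose! ρ hρ using hS2
  obtain ⟨t, ht⟩ : ∃ t : Finset ℕ, t = (Icc 1 y).filter Nat.Prime := ⟨_, rfl⟩
  obtain ⟨m, hm⟩ := Nat.chineseRemainderOfFinset (fun p : ℕ => ((-(ρ p) - 1) % (p : ℤ)).toNat)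
    (fun p : ℕ => p) t (by
      intro p hp
      rw [ht, mem_filter] at hp
      exact hp.2.ne_zero) (by
      intro p hp q hq hpq
      rw [ht] at hp hq
      exact (Nat.coprime_primes (mem_filter.1 (Finset.mem_coe.1 hp)).2
        (mem_filter.1 (Finset.mem_coe.1 hq)).2).2 hpq)
  refine ⟨m, ?_⟩
  have hinj : ∀ a ∈ S, ∀ b ∈ S, ((m : ℤ) + 1 + a).toNat = ((m : ℤ) + 1 + b).toNat → a = b := by
    intro a ha b hb hab
    have h1 := (hS1 a ha).1
    have h2 := (hS1 b hb).1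
    omega
  have hsub : S.image (fun s => ((m : ℤ) + 1 + s).toNat) ⊆ places y m := by
    intro v hv
    rw [mem_image] at hv
    obtain ⟨s, hs, rfl⟩ := hv
    obtain ⟨h1, h2⟩ := hS1 s hs
    have h3 : s < y := by exact_mod_cast h2
    rw [mem_places]
    refine ⟨by omega, ?_⟩
    intro p hp hpy hd
    have h4 : (p : ℤ) ∣ (m : ℤ) + 1 + s := by
      have h5 : (((m : ℤ) + 1 + s).toNat : ℤ) = (m : ℤ) + 1 + s := Int.toNat_of_nonneg (by omega)
      rw [← h5]
      exact_mod_cast hd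
    have h6 := hm p (by
      rw [ht, mem_filter, mem_Icc]
      exact ⟨⟨hp.one_lt.le, hpy⟩, hp⟩)
    have hp0 : (p : ℤ) ≠ 0 := by exact_mod_cast hp.ne_zero
    have h7 : (p : ℤ) ∣ (m : ℤ) - (-(ρ p) - 1) := by
      have h8 : (m : ℤ) ≡ (((-(ρ p) - 1) % (p : ℤ)).toNat : ℤ) [ZMOD p] :=
        (Int.natCast_modEq_iff).2 h6
      rw [Int.toNat_of_nonneg (Int.emod_nonneg _ hp0)] at h8
      have h9 := h8.trans (Int.mod_modEq _ _)
      exact (Int.modEq_iff_dvd.1 h9.symm)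
    apply hρ p hp s hs
    have h10 := dvd_sub h4 h7
    have e : (m : ℤ) + 1 + s - (m - (-(ρ p) - 1)) = s - ρ p := by ring
    rwa [e] at h10
  have hcard : S.card ≤ h y m := by
    rw [← Finset.card_image_of_injOn (fun a ha b hb hab => hinj a ha b hb hab)]
    exact card_le_card hsub
  exact hS3.trans (by exact_mod_cast hcard)

/-- **Windows of length `y` with more than `π(y)` almost primes.** -/
theorem result (α : ℝ) (hα : α < 1 / 2) : ∃ y₀ : ℕ, ∀ y : ℕ, y₀ ≤ y → ∃ m : ℕ,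
    (Nat.primeCounting y : ℝ) + α * (y * Real.log (Real.log (Real.log y)) / (Real.log y) ^ 2) ≤ h y m ∧
    ∀ (c : ℕ) (θ δ x₀ ε : ℝ), 0 < θ → 0 < δ → δ ≤ 1 → 0 < ε → ε ≤ 1 →
    ∃ r₀ : ℕ, 2 ≤ r₀ ∧ ∀ r : ℕ, r₀ ≤ r → ∃ N₀ : ℕ, ∀ N : ℕ, N₀ ≤ N →
      (∀ n : ℕ, n ≤ c * N → Rough N r n → n.primeFactorsList.length ≤ r) ∧
      0 < V y (h y m) N r ∧
      ∀ n ∈ places y m, ∀ X : ℕ, (N : ℝ) ^ θ ≤ X → ∀ u Y : ℕ, δ * X ≤ Y → u + Y ≤ X →
        |((W y m n N r u Y).card : ℝ) * Real.log X - Y * (V y (h y m) N r / U N r)| ≤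
          ε * (Y * (V y (h y m) N r / U N r)) ∧
        ∀ T : ℕ, T * V y (h y m) N r ≤ x₀ → ∀ S : Finset ℕ,
        |(((W y m n N r u Y).filter (fun x => Next y m N r T x ∈ S)).card : ℝ) -
          (W y m n N r u Y).card *
            ∑ j ∈ S, Real.exp (-(T * V y (h y m) N r)) * (T * V y (h y m) N r) ^ j / j.factorial| ≤
          ε * (W y m n N r u Y).card := by
  obtain ⟨y0, h0⟩ := dense α hα
  refine ⟨max y0 1, ?_⟩
  intro y hy
  obtain ⟨m, hm⟩ := h0 y ((le_max_left _ _).trans hy)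
  refine ⟨m, hm, ?_⟩
  intro c θ δ x₀ ε hθ hδ hδ1 hε hε1
  obtain ⟨r0, hr0, h1⟩ := full y m ((le_max_right _ _).trans hy) θ δ hθ hδ hδ1 x₀ ε hε hε1
  refine ⟨r0, hr0, ?_⟩
  intro r hr
  obtain ⟨N1, hN1⟩ := h1 r hr
  obtain ⟨N2, hN2⟩ := few c r (hr0.trans hr)
  refine ⟨max N1 N2, ?_⟩
  intro N hN
  obtain ⟨_, g2, g3⟩ := hN1 N ((le_max_left _ _).trans hN)
  exact ⟨hN2 N ((le_max_right _ _).trans hN), g2, g3⟩

end Pool.Agent.Results.MP_5046ca_nt.AlmostPrimeWindows
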