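import Pool.Agent.Results.MP_31d0eb_nt.BalancedPrimes

set_option autoImplicit false

/-!
# MP_5046ca_nt: windows which contain a given prime hold far fewer than `π(y)` primes

The problem asks whether every sufficiently late window `(x, x + y]` has at most `π(y) - M` primes,
once `y ≥ y₀(M)`.  We show that much more is true for ALL the windows which contain `p`, for almost
every prime `p`, with `y` as large as a power of `x`: let `θ > 0`, `X` large, `X ^ θ ≤ Y ≤ X`.

For all but `C lam^(-1/2) Y / log X` of the primes `p` in `(X, X + Y]` every window `(x, x + y]` with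
`x < p ≤ x + y` and `y₀ ≤ y ≤ X ^ (δ / (C lam))` has at most `δ π(y) - M` primes; `C` depends only
on `θ`, and `y₀` on `δ`, `M`, `lam`.  The range of `y` is best possible up to the constant, since the
prime number theorem in short intervals would make the windows of length `y = X ^ (2 δ)` hold
`(2 δ + o(1)) π(y)` primes.
-/

namespace Pool.Agent.Results.MP_5046ca_nt.WindowsOfMostPrimes

open Finset Filter
open Pool.Agent.Results.MP_31d0eb_nt.BalancedPrimes

/-- all windows `(x, x + y]` that contain `p` and have length `y₀ ≤ y ≤ Z` hold at most `δ π(y) - M`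
primes -/
def FewInWindows (δ M : ℝ) (y₀ : ℕ) (Z : ℝ) (p : ℕ) : Prop :=
  ∀ x y : ℕ, x < p → p ≤ x + y → y₀ ≤ y → (y : ℝ) ≤ Z →
    (Nat.primeCounting (x + y) : ℝ) - Nat.primeCounting x ≤ δ * Nat.primeCounting y - M

lemma count_primes (x y : ℕ) :
    (count primes x y : ℝ) = (Nat.primeCounting (x + y) : ℝ) - Nat.primeCounting x := by
  have h1 : count primes x y = ((Ioc x (x + y)).filter Nat.Prime).card := by
    unfold count primes
    rw [← Set.ncard_coe_finset]
    congr 1
    ext q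
    simp only [Set.mem_ofPred_eq, coe_filter, mem_Ioc]
    constructor
    · rintro ⟨h1, h2, h3⟩
      exact ⟨⟨by exact_mod_cast h2, by exact_mod_cast h3⟩, h1⟩
    · rintro ⟨⟨h1, h2⟩, h3⟩
      exact ⟨h3, by exact_mod_cast h1, by exact_mod_cast h2⟩
  have h2 : ∀ n : ℕ, Nat.primeCounting n = ((Ioc 0 n).filter Nat.Prime).card := by
    intro n
    rw [Nat.primeCounting, Nat.primeCounting', Nat.count_eq_card_filter_range]
    congr 1
    ext q
    simp only [mem_filter, mem_range, mem_Ioc]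
    constructor
    · rintro ⟨h1, h2⟩
      exact ⟨⟨h2.pos, by omega⟩, h2⟩
    · rintro ⟨⟨h1, h2⟩, h3⟩
      exact ⟨by omega, h3⟩
  have h3 : ((Ioc 0 (x + y)).filter Nat.Prime).card =
      ((Ioc 0 x).filter Nat.Prime).card + ((Ioc x (x + y)).filter Nat.Prime).card := by
    rw [← card_union_of_disjoint]
    · congr 1
      rw [← filter_union, Ioc_union_Ioc_eq_Ioc (by omega) (by omega)]
    · apply disjoint_filter_filter
      rw [disjoint_left]
      intro q hq
      rw [mem_Ioc] at hq ⊢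
      omega
  rw [h1, h2, h2, h3]
  push_cast
  ring

/-- Chebyshev: `π(n) ≥ n / (2 log n)` for large `n` -/
lemma chebyshev_lower : ∀ᶠ n : ℕ in atTop,
    (n : ℝ) / (2 * Real.log n) ≤ Nat.primeCounting n := by
  filter_upwards [eventually_ge_atTop 1000] with n hn
  have hn' : (1000 : ℝ) ≤ n := by exact_mod_cast hn
  have hlog : 0 < Real.log n := Real.log_pos (by linarith)
  rw [div_le_iff₀ (by positivity)]
  have h1 := Chebyshev.psi_ge n
  have h2 := Chebyshev.psi_le_primeCounting_mul_log n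
  have h3 : Real.log ((n : ℝ) + 1) ≤ 2 * √((n : ℝ) + 1) := by
    have e : Real.log ((n : ℝ) + 1) = 2 * Real.log (√((n : ℝ) + 1)) := by
      rw [Real.log_sqrt (by positivity)]
      ring
    rw [e]
    have : Real.log (√((n : ℝ) + 1)) ≤ √((n : ℝ) + 1) :=
      (Real.log_le_self (by positivity))
    linarith
  have h4 : √((n : ℝ) + 1) ≤ 0.06 * n := by
    rw [Real.sqrt_le_left (by positivity)]
    nlinarith
  have h5 : (0.69 : ℝ) ≤ Real.log 2 := by linarith [Real.log_two_gt_d9]
  have h6 : (n : ℝ) * 0.69 ≤ n * Real.log 2 := by gcongr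
  nlinarith

/-- **Main estimate.** -/
theorem main (θ : ℝ) (h0 : 0 < θ) : ∃ C : ℝ, 0 < C ∧ ∀ δ M lam : ℝ, 0 < δ → δ ≤ 1 → 1 ≤ lam →
    ∃ y₀ : ℕ, ∀ᶠ X : ℕ in atTop, ∀ Y : ℕ, (X : ℝ) ^ θ ≤ Y → Y ≤ X →
      ({p : ℕ | p.Prime ∧ X < p ∧ p ≤ X + Y ∧
        ¬ FewInWindows δ M y₀ ((X : ℝ) ^ (δ / (C * lam))) p}.ncard : ℝ) ≤
        C / √lam * (Y / Real.log X) := by
  obtain ⟨C0, hC0, h⟩ := Pool.Agent.Results.MP_31d0eb_nt.BalancedPrimes.result.1 θ h0
  refine ⟨C0 + 1 / θ + 8, by positivity, ?_⟩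
  intro δ M lam hδ hδ1 hlam
  obtain ⟨N1, hN1⟩ := eventually_atTop.1 chebyshev_lower
  obtain ⟨N2, hN2⟩ := eventually_atTop.1
    ((tendsto_natCast_atTop_atTop (R := ℝ)).comp Nat.tendsto_primeCounting |>.eventually_ge_atTop
      ((2 * lam + 2 * |M|) / δ))
  have hlogX : Tendsto (fun X : ℕ => Real.log (X : ℝ)) atTop atTop :=
    Real.tendsto_log_atTop.comp tendsto_natCast_atTop_atTop
  refine ⟨N1 + N2 + 2, ?_⟩
  filter_upwards [h, hlogX.eventually_ge_atTop 1, eventually_ge_atTop 1] with X hX hL hX1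
  intro Y hY hYX
  have hX1' : (1 : ℝ) ≤ X := by exact_mod_cast hX1
  have hYL : 0 ≤ (Y : ℝ) / Real.log X := by positivity
  have h1 := hX Y hY hYX primes subset_rfl lam hlam
  have h2 : ({p : ℕ | p.Prime ∧ X < p ∧ p ≤ X + Y ∧
        ¬ FewInWindows δ M (N1 + N2 + 2) ((X : ℝ) ^ (δ / ((C0 + 1 / θ + 8) * lam))) p}.ncard : ℝ) ≤
      ({p : ℕ | p ∈ primes ∧ X < p ∧ p ≤ X + Y ∧ ¬ RightOrder primes lam X Y p}.ncard : ℝ) := by
    apply Nat.cast_le.2
    apply Set.ncard_le_ncard
    · rintro p ⟨p1, p2, p3, p4⟩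
      refine ⟨p1, p2, p3, fun hR => p4 ?_⟩
      intro x y hx hxy hy0 hyZ
      have hyp : 0 < (y : ℝ) := by
        have : 0 < y := by omega
        exact_mod_cast this
      have hy1 : (1 : ℝ) < y := by
        have : 1 < y := by omega
        exact_mod_cast this
      have hlogy : 0 < Real.log y := Real.log_pos hy1
      set c := δ / ((C0 + 1 / θ + 8) * lam) with hc
      have hc0 : 0 < c := by positivity
      have hly : Real.log y ≤ c * Real.log X := by
        have := Real.log_le_log hyp hyZ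
        rwa [Real.log_rpow (by linarith)] at this
      have hcθ : c ≤ θ := by
        rw [hc, div_le_iff₀ (by positivity)]
        have e1 : (1 : ℝ) ≤ θ * (C0 + 1 / θ + 8) := by
          have : θ * (C0 + 1 / θ + 8) = θ * C0 + 1 + θ * 8 := by
            field_simp
          rw [this]
          nlinarith [mul_pos h0 hC0]
        calc δ ≤ 1 * 1 := by linarith
          _ ≤ (θ * (C0 + 1 / θ + 8)) * lam := mul_le_mul e1 hlam (by norm_num) (by positivity)
          _ = _ := by ring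
      have hyY : (y : ℝ) ≤ Y :=
        hyZ.trans ((Real.rpow_le_rpow_of_exponent_le hX1' hcθ).trans hY)
      have hc8 : c ≤ δ / (8 * lam) := by
        rw [hc]
        apply div_le_div_of_nonneg_left hδ.le (by positivity)
        have : 0 < 1 / θ := by positivity
        nlinarith
      obtain ⟨-, r2⟩ := hR x y (by exact_mod_cast hx) (by exact_mod_cast hxy) hyY
      rw [count_primes] at r2
      have q1 := hN1 y (by omega)
      have q2 : (2 * lam + 2 * |M|) / δ ≤ Nat.primeCounting y := hN2 y (by omega)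
      rw [div_le_iff₀ hδ] at q2
      rw [div_le_iff₀ (by positivity)] at q1
      have hMabs := le_abs_self M
      have hMnn := abs_nonneg M
      have hLpos : 0 < Real.log X := by linarith
      -- `lam * (y / log X) ≤ (δ / 4) π(y)`
      have q3 : lam * ((y : ℝ) / Real.log X) ≤ δ / 4 * Nat.primeCounting y := by
        rw [← mul_div_assoc, div_le_iff₀ hLpos]
        have q4 : Real.log y ≤ δ / (8 * lam) * Real.log X :=
          hly.trans (mul_le_mul_of_nonneg_right hc8 hLpos.le)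
        have q5 : 8 * lam * Real.log y ≤ δ * Real.log X := by
          calc 8 * lam * Real.log y ≤ 8 * lam * (δ / (8 * lam) * Real.log X) := by gcongr
            _ = δ * Real.log X := by field_simp
        have q6 : 0 ≤ (Nat.primeCounting y : ℝ) := Nat.cast_nonneg _
        calc lam * (y : ℝ) ≤ lam * (Nat.primeCounting y * (2 * Real.log y)) := by gcongr
          _ = (8 * lam * Real.log y) * (Nat.primeCounting y / 4) := by ring
          _ ≤ (δ * Real.log X) * (Nat.primeCounting y / 4) := by gcongr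
          _ = _ := by ring
      nlinarith
    · apply Set.Finite.subset (Finset.finite_toSet (Ioc X (X + Y)))
      rintro p ⟨-, p2, p3, -⟩
      rw [mem_coe, mem_Ioc]
      exact ⟨p2, p3⟩
  refine h2.trans (h1.trans ?_)
  apply mul_le_mul_of_nonneg_right _ hYL
  apply div_le_div_of_nonneg_right _ (Real.sqrt_nonneg _)
  have : 0 < 1 / θ := by positivity
  linarith

/-- **Windows around almost every prime.**  (1) is the quantitative bound for the exceptions in short
intervals, (2) the consequence for the proportion of the primes in `(X, 2 X]`. -/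
theorem result :
    (∀ θ : ℝ, 0 < θ → ∃ C : ℝ, 0 < C ∧ ∀ δ M lam : ℝ, 0 < δ → δ ≤ 1 → 1 ≤ lam →
      ∃ y₀ : ℕ, ∀ᶠ X : ℕ in atTop, ∀ Y : ℕ, (X : ℝ) ^ θ ≤ Y → Y ≤ X →
        ({p : ℕ | p.Prime ∧ X < p ∧ p ≤ X + Y ∧
          ¬ FewInWindows δ M y₀ ((X : ℝ) ^ (δ / (C * lam))) p}.ncard : ℝ) ≤
          C / √lam * (Y / Real.log X)) ∧
    (∀ δ M η : ℝ, 0 < δ → 0 < η → ∃ (y₀ : ℕ) (c : ℝ), 0 < c ∧ ∀ᶠ X : ℕ in atTop,
      ({p : ℕ | p.Prime ∧ X < p ∧ p ≤ 2 * X ∧ ¬ FewInWindows δ M y₀ ((X : ℝ) ^ c) p}.ncard : ℝ) ≤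
        η * ({p : ℕ | p.Prime ∧ X < p ∧ p ≤ 2 * X}.ncard : ℝ)) := by
  refine ⟨main, ?_⟩
  intro δ M η hδ hη
  obtain ⟨θ, hθ0, hθ1, c₁, hc₁, hS⟩ := Pool.Agent.Results.MP_31d0eb_nt.BalancedPrimes.result.2.2.1
  obtain ⟨C, hC, h⟩ := main θ hθ0
  set lam : ℝ := (C / (c₁ * η)) ^ 2 + 1 with hlamdef
  have hlam : 1 ≤ lam := by
    have : 0 ≤ (C / (c₁ * η)) ^ 2 := by positivity
    linarith
  have hδ' : 0 < min δ 1 := lt_min hδ one_pos
  obtain ⟨y₀, hy⟩ := h (min δ 1) M lam hδ' (min_le_right _ _) hlam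
  refine ⟨y₀, min δ 1 / (C * lam), by positivity, ?_⟩
  have hlogX : Tendsto (fun X : ℕ => Real.log (X : ℝ)) atTop atTop :=
    Real.tendsto_log_atTop.comp tendsto_natCast_atTop_atTop
  filter_upwards [hy, hS, hlogX.eventually_ge_atTop 1, eventually_ge_atTop 1] with X hX hSX hL hX1
  have hX1' : (1 : ℝ) ≤ X := by exact_mod_cast hX1
  have hXX : (X : ℝ) ^ θ ≤ (X : ℝ) := by
    calc (X : ℝ) ^ θ ≤ (X : ℝ) ^ (1 : ℝ) := Real.rpow_le_rpow_of_exponent_le hX1' hθ1.le
      _ = X := Real.rpow_one _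
  have a1 := hX X hXX le_rfl
  have a2 := hSX X hXX le_rfl
  rw [← two_mul] at a1 a2
  have hYL : 0 ≤ (X : ℝ) / Real.log X := by positivity
  have a3 : C / √lam ≤ η * c₁ := by
    have hs : C / (c₁ * η) ≤ √lam := by
      apply Real.le_sqrt_of_sq_le
      rw [hlamdef]
      linarith
    have hs0 : 0 < √lam := Real.sqrt_pos.2 (by linarith)
    rw [div_le_iff₀ hs0]
    rw [div_le_iff₀ (by positivity)] at hs
    linarith
  have a4 : ({p : ℕ | p.Prime ∧ X < p ∧ p ≤ 2 * X ∧
      ¬ FewInWindows δ M y₀ ((X : ℝ) ^ (min δ 1 / (C * lam))) p}.ncard : ℝ) ≤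
      ({p : ℕ | p.Prime ∧ X < p ∧ p ≤ 2 * X ∧
      ¬ FewInWindows (min δ 1) M y₀ ((X : ℝ) ^ (min δ 1 / (C * lam))) p}.ncard : ℝ) := by
    apply Nat.cast_le.2
    apply Set.ncard_le_ncard
    · rintro p ⟨p1, p2, p3, p4⟩
      refine ⟨p1, p2, p3, fun hF => p4 ?_⟩
      intro x y b1 b2 b3 b4
      refine (hF x y b1 b2 b3 b4).trans ?_
      have : min δ 1 * (Nat.primeCounting y : ℝ) ≤ δ * Nat.primeCounting y := by
        gcongr
        exact min_le_left _ _
      linarith
    · apply Set.Finite.subset (Finset.finite_toSet (Ioc X (2 * X)))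
      rintro p ⟨-, p2, p3, -⟩
      rw [mem_coe, mem_Ioc]
      exact ⟨p2, p3⟩
  calc _ ≤ _ := a4
    _ ≤ C / √lam * (X / Real.log X) := a1
    _ ≤ η * c₁ * (X / Real.log X) := mul_le_mul_of_nonneg_right a3 hYL
    _ = η * (c₁ * X / Real.log X) := by ring
    _ ≤ _ := mul_le_mul_of_nonneg_left a2 hη.le

end Pool.Agent.Results.MP_5046ca_nt.WindowsOfMostPrimes
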